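import Mathlib
import Pool.Agent.Helper26.Maz.Defs

/-!
# Basic facts on holonomies
-/

set_option autoImplicit false

namespace Pool.Agent.Helper84.Maz

open Pool.Agent.Helper26.Maz

variable {X : Type*} [TopologicalSpace X] {Y : Type*} [TopologicalSpace Y] {Γ : Type*} [Group Γ]

/-- The holonomy of the image of a path in a simply connected space depends on the ends only. -/
theorem hol_map_eq {Z : Type*} [TopologicalSpace Z] [SimplyConnectedSpace Z] {S : Set X}
    (H : HolOn S Γ) (f : C(Z, X)) (hf : ∀ z, f z ∈ S) {a b : Z} (γ γ' : Path a b) :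
    H.hol (γ.map f.continuous) = H.hol (γ'.map f.continuous) := by
  obtain ⟨h⟩ := SimplyConnectedSpace.paths_homotopic γ γ'
  exact H.homot _ _ (h.map f) (fun p => hf _)

theorem hol_refl {S : Set X} (H : HolOn S Γ) {x : X} (hx : x ∈ S) :
    H.hol (Path.refl x) = 1 := by
  have h := H.trans (Path.refl x) (Path.refl x) (fun _ => hx) (fun _ => hx)
  rw [Path.refl_trans_refl] at h
  simpa using h.symm

/-- Equality of the values suffices. -/
theorem hol_congr {S : Set X} (H : HolOn S Γ) {x y : X} (γ γ' : Path x y)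
    (h : ∀ t, γ t = γ' t) : H.hol γ = H.hol γ' := by
  have : γ = γ' := by ext t; exact h t
  rw [this]

/-- Equality of the values suffices, with different ends. -/
theorem hol_congr' {S : Set X} (H : HolOn S Γ) {x y x' y' : X} (γ : Path x y) (γ' : Path x' y')
    (h : ∀ t, γ t = γ' t) : H.hol γ = H.hol γ' := by
  have h0 : x = x' := by simpa using h 0
  have h1 : y = y' := by simpa using h 1
  subst h0; subst h1
  exact hol_congr H γ γ' h

theorem hol_symm {S : Set X} (H : HolOn S Γ) {x y : X} (γ : Path x y)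
    (hγ : ∀ t, γ t ∈ S) : H.hol γ.symm = (H.hol γ)⁻¹ := by
  have h1 : H.hol (γ.trans γ.symm) = H.hol γ * H.hol γ.symm :=
    H.trans _ _ hγ (fun t => by simpa using hγ _)
  have h2 : H.hol (γ.trans γ.symm) = H.hol (Path.refl x) := by
    refine (H.homot _ _ (Path.Homotopy.reflTransSymm γ) ?_).symm
    intro p
    have := Path.Homotopy.reflTransSymm γ
    exact hγ _
  rw [hol_refl H (by simpa using hγ 0), h1] at h2
  exact eq_inv_of_mul_eq_one_right h2

end Pool.Agent.Helper84.Maz

namespace Pool.Agent.Helper84.Maz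

open Pool.Agent.Helper26.Maz unitInterval

variable {X : Type*} [TopologicalSpace X] {Y : Type*} [TopologicalSpace Y] {Γ : Type*} [Group Γ]

/-- the horizontal segment in the square -/
def hSeg (u : I) : Path ((0 : I), u) ((1 : I), u) where
  toFun t := (t, u)
  continuous_toFun := by fun_prop
  source' := rfl
  target' := rfl

/-- the vertical segment in the square -/
def vSeg (u : I) : Path (u, (0 : I)) (u, (1 : I)) where
  toFun t := (u, t)
  continuous_toFun := by fun_prop
  source' := rfl
  target' := rfl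

theorem simply_square : SimplyConnectedSpace (I × I) := by
  have h1 : ContractibleSpace (Set.Icc (0 : ℝ) 1 ×ˢ Set.Icc (0 : ℝ) 1 : Set (ℝ × ℝ)) :=
    ((convex_Icc 0 1).prod (convex_Icc 0 1)).contractibleSpace ⟨(0, 0), by simp⟩
  have h2 : ContractibleSpace (I × I) :=
    (Homeomorph.Set.prod (Set.Icc (0 : ℝ) 1) (Set.Icc (0 : ℝ) 1)).symm.contractibleSpace
  exact SimplyConnectedSpace.ofContractible _

theorem hol_square {S : Set X} (H : HolOn S Γ) (F : I × I → X) (hF : Continuous F)
    (hS : ∀ p, F p ∈ S) {a b c d : X} (bot : Path a b) (right : Path b d) (left : Path a c)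
    (top : Path c d) (hb : ∀ t, bot t = F (t, 0)) (hr : ∀ t, right t = F (1, t))
    (hl : ∀ t, left t = F (0, t)) (ht : ∀ t, top t = F (t, 1)) :
    H.hol bot * H.hol right = H.hol left * H.hol top := by
  have := simply_square
  have key := hol_map_eq H ⟨F, hF⟩ hS ((hSeg 0).trans (vSeg 1)) ((vSeg 0).trans (hSeg 1))
  rw [Path.map_trans, Path.map_trans, H.trans _ _ (fun t => hS _) (fun t => hS _),
    H.trans _ _ (fun t => hS _) (fun t => hS _)] at key
  have e1 : H.hol bot = H.hol ((hSeg 0).map (⟨F, hF⟩ : C(I × I, X)).continuous) :=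
    hol_congr' H _ _ (fun t => by rw [hb]; rfl)
  have e2 : H.hol right = H.hol ((vSeg 1).map (⟨F, hF⟩ : C(I × I, X)).continuous) :=
    hol_congr' H _ _ (fun t => by rw [hr]; rfl)
  have e3 : H.hol left = H.hol ((vSeg 0).map (⟨F, hF⟩ : C(I × I, X)).continuous) :=
    hol_congr' H _ _ (fun t => by rw [hl]; rfl)
  have e4 : H.hol top = H.hol ((hSeg 1).map (⟨F, hF⟩ : C(I × I, X)).continuous) :=
    hol_congr' H _ _ (fun t => by rw [ht]; rfl)
  rw [e1, e2, e3, e4]
  exact key

end Pool.Agent.Helper84.Maz
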