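import Mathlib
import Pool.Agent.Helper84.Maz.Gen

/-!
# Radial retractions
-/

set_option autoImplicit false

namespace Pool.Agent.Helper84.Maz

open Pool.Agent.Helper26.Maz unitInterval

instance : CompactSpace D2 := isCompact_iff_compactSpace.mp (isCompact_closedBall _ _)

/-- The radial push towards the boundary of the disk. -/
noncomputable def kap (p : I × D2) : D2 :=
  ⟨((1 - (p.1 : ℝ)) + (p.1 : ℝ) / ‖(p.2 : ℂ)‖ : ℝ) • (p.2 : ℂ), by
    rw [mem_closedBall_zero_iff, norm_smul]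
    have h0 : 0 ≤ (p.1 : ℝ) := p.1.2.1
    have h1 : (p.1 : ℝ) ≤ 1 := p.1.2.2
    have h2 : ‖(p.2 : ℂ)‖ ≤ 1 := mem_closedBall_zero_iff.mp p.2.2
    have h3 : 0 ≤ ‖(p.2 : ℂ)‖ := norm_nonneg _
    rw [Real.norm_eq_abs, abs_of_nonneg (by
      have := div_nonneg h0 h3
      linarith)]
    rcases h3.eq_or_lt with h | h
    · rw [← h]; simp
    · rw [add_mul, div_mul_cancel₀ _ h.ne']
      nlinarith⟩

theorem kap_coe (p : I × D2) : (kap p : ℂ) =
    ((1 - (p.1 : ℝ)) + (p.1 : ℝ) / ‖(p.2 : ℂ)‖ : ℝ) • (p.2 : ℂ) := rfl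

theorem kap_zero (s : D2) : kap (0, s) = s := by
  apply Subtype.ext
  simp [kap_coe]

theorem kap_of_norm (u : I) {s : D2} (h : ‖(s : ℂ)‖ = 1) : kap (u, s) = s := by
  apply Subtype.ext
  rw [kap_coe]
  simp [h]

theorem norm_kap {u : I} {s : D2} (h : (s : ℂ) ≠ 0) :
    ‖(kap (u, s) : ℂ)‖ = (1 - (u : ℝ)) * ‖(s : ℂ)‖ + u := by
  have h0 : 0 ≤ (u : ℝ) := u.2.1
  have h1 : (u : ℝ) ≤ 1 := u.2.2
  have h3 : 0 < ‖(s : ℂ)‖ := norm_pos_iff.mpr h
  rw [kap_coe, norm_smul, Real.norm_eq_abs, abs_of_nonneg (by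
      have := div_nonneg h0 h3.le
      simp only
      linarith)]
  simp only
  rw [add_mul, div_mul_cancel₀ _ h3.ne']

theorem kap_ne_zero {u : I} {s : D2} (h : (s : ℂ) ≠ 0) : (kap (u, s) : ℂ) ≠ 0 := by
  have h0 : 0 ≤ (u : ℝ) := u.2.1
  have h1 : (u : ℝ) ≤ 1 := u.2.2
  have h3 : 0 < ‖(s : ℂ)‖ := norm_pos_iff.mpr h
  rw [← norm_pos_iff, norm_kap h]
  rcases h1.eq_or_lt with h | h
  · rw [h]; simp
  · have := mul_pos (sub_pos.mpr h) h3
    linarith

theorem norm_kap_one {s : D2} (h : (s : ℂ) ≠ 0) : ‖(kap (1, s) : ℂ)‖ = 1 := by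
  rw [norm_kap h]; simp

theorem continuousOn_kap : ContinuousOn kap {p | (p.2 : ℂ) ≠ 0} := by
  rw [Topology.IsInducing.subtypeVal.continuousOn_iff]
  change ContinuousOn (fun p : I × D2 => ((1 - (p.1 : ℝ)) + (p.1 : ℝ) / ‖(p.2 : ℂ)‖ : ℝ) • (p.2 : ℂ)) _
  have h1 : ContinuousOn (fun p : I × D2 => (1 - (p.1 : ℝ)) + (p.1 : ℝ) / ‖(p.2 : ℂ)‖)
      {p | (p.2 : ℂ) ≠ 0} := by
    refine ContinuousOn.add (f := fun p : I × D2 => 1 - (p.1 : ℝ))
      (g := fun p : I × D2 => (p.1 : ℝ) / ‖(p.2 : ℂ)‖) (by fun_prop) ?_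
    refine ContinuousOn.div (by fun_prop) (by fun_prop) ?_
    intro p hp
    exact norm_ne_zero_iff.mpr hp
  have h2 : ContinuousOn (fun p : I × D2 => (p.2 : ℂ)) {p | (p.2 : ℂ) ≠ 0} := by fun_prop
  exact h1.smul h2

theorem continuousOn_of_two {X Y : Type*} [TopologicalSpace X] [TopologicalSpace Y] {f : X → Y}
    {T C₁ C₂ : Set X} (h₁ : IsClosed C₁) (h₂ : IsClosed C₂) (hT : T ⊆ C₁ ∪ C₂)
    (f₁ : ContinuousOn f (T ∩ C₁)) (f₂ : ContinuousOn f (T ∩ C₂)) : ContinuousOn f T := by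
  intro x hx
  have e : T = (T ∩ C₁) ∪ (T ∩ C₂) := by
    rw [← Set.inter_union_distrib_left, Set.inter_eq_left.mpr hT]
  rw [e]
  apply ContinuousWithinAt.union
  · by_cases h : x ∈ C₁
    · exact f₁ x ⟨hx, h⟩
    · apply continuousWithinAt_of_notMem_closure
      intro hc
      exact h (h₁.closure_subset (closure_mono Set.inter_subset_right hc))
  · by_cases h : x ∈ C₂
    · exact f₂ x ⟨hx, h⟩
    · apply continuousWithinAt_of_notMem_closure
      intro hc
      exact h (h₂.closure_subset (closure_mono Set.inter_subset_right hc))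

theorem continuousOn_inv {Z X : Type*} [TopologicalSpace Z] [CompactSpace Z] [Nonempty Z]
    [TopologicalSpace X] [T2Space X] {Φ : Z → X} (hc : Continuous Φ) (hi : Function.Injective Φ) :
    ContinuousOn (Function.invFun Φ) (Set.range Φ) := by
  have he : Topology.IsClosedEmbedding Φ := hc.isClosedEmbedding hi
  rw [continuousOn_iff_continuous_domRestrict]
  have : (Set.range Φ).domRestrict (Function.invFun Φ) = he.toIsEmbedding.toHomeomorph.symm := by
    funext x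
    obtain ⟨x, z, rfl⟩ := x
    have h1 : he.toIsEmbedding.toHomeomorph z = ⟨Φ z, z, rfl⟩ := rfl
    rw [← h1, Homeomorph.symm_apply_apply]
    exact Function.leftInverse_invFun hi z
  rw [this]
  exact Homeomorph.continuous _

/-- The radial deformation of `S` onto `A`. -/
structure Radial {Q X : Type*} [TopologicalSpace Q] [TopologicalSpace X] (Φ : Q × D2 → X)
    (A S : Set X) (R : I × X → X) : Prop where
  cont : ContinuousOn R (Set.univ ×ˢ S)
  zero : ∀ x, R (0, x) = x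
  mem : ∀ u, ∀ x ∈ S, R (u, x) ∈ S
  one : ∀ x ∈ S, R (1, x) ∈ A
  fix : ∀ u, ∀ x ∈ A, R (u, x) = x
  eq : ∀ u q s, R (u, Φ (q, s)) = Φ (q, kap (u, s))

theorem exists_radial {Q X : Type*} [TopologicalSpace Q] [CompactSpace Q] [Nonempty Q]
    [TopologicalSpace X] [T2Space X] (Φ : Q × D2 → X) (hc : Continuous Φ)
    (hi : Function.Injective Φ) (A S : Set X) (hA : IsClosed A)
    (hA1 : ∀ q (s : D2), Φ (q, s) ∈ A → ‖(s : ℂ)‖ = 1)
    (hA2 : ∀ q (s : D2), ‖(s : ℂ)‖ = 1 → Φ (q, s) ∈ A)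
    (hS1 : ∀ x ∈ S, x ∈ A ∨ ∃ q, ∃ s : D2, (s : ℂ) ≠ 0 ∧ Φ (q, s) = x)
    (hS3 : ∀ q (s : D2), (s : ℂ) ≠ 0 → Φ (q, s) ∈ S) : ∃ R, Radial Φ A S R := by
  classical
  have hne : Nonempty (Q × D2) := ⟨(Classical.arbitrary Q, d0)⟩
  set ψ := Function.invFun Φ with hψ
  have hψ1 : ∀ z, ψ (Φ z) = z := Function.leftInverse_invFun hi
  have hcl : IsClosed (Set.range Φ) := (isCompact_range hc).isClosed
  let g : I × X → X := fun p => Φ ((ψ p.2).1, kap (p.1, (ψ p.2).2))
  let R : I × X → X := fun p => if p.2 ∈ Set.range Φ then g p else p.2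
  have hR1 : ∀ p : I × X, p.2 ∈ Set.range Φ → R p = g p := fun p hp => if_pos hp
  have hfix : ∀ u, ∀ x ∈ A, R (u, x) = x := by
    intro u x hx
    by_cases h : x ∈ Set.range Φ
    · obtain ⟨⟨q, s⟩, rfl⟩ := h
      rw [hR1 _ ⟨_, rfl⟩]
      simp only [g, hψ1]
      rw [kap_of_norm u (hA1 q s hx)]
    · exact if_neg h
  have heq : ∀ u q s, R (u, Φ (q, s)) = Φ (q, kap (u, s)) := by
    intro u q s
    rw [hR1 _ ⟨_, rfl⟩]
    simp only [g, hψ1]
  refine ⟨R, ⟨?_, ?_, ?_, ?_, hfix, heq⟩⟩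
  · apply continuousOn_of_two (C₁ := Set.univ ×ˢ A) (C₂ := Set.univ ×ˢ Set.range Φ)
      (isClosed_univ.prod hA) (isClosed_univ.prod hcl)
    · rintro ⟨u, x⟩ ⟨-, hx⟩
      rcases hS1 x hx with h | ⟨q, s, -, rfl⟩
      · exact Or.inl ⟨trivial, h⟩
      · exact Or.inr ⟨trivial, _, rfl⟩
    · apply continuousOn_snd.congr
      rintro ⟨u, x⟩ ⟨-, -, hx⟩
      exact hfix u x hx
    · have hg : ContinuousOn g ((Set.univ ×ˢ S) ∩ (Set.univ ×ˢ Set.range Φ)) := by
        have h1 : ContinuousOn (fun p : I × X => ψ p.2)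
            ((Set.univ ×ˢ S) ∩ (Set.univ ×ˢ Set.range Φ)) :=
          (continuousOn_inv hc hi).comp continuousOn_snd (fun p hp => hp.2.2)
        have h2 : ContinuousOn (fun p : I × X => kap (p.1, (ψ p.2).2))
            ((Set.univ ×ˢ S) ∩ (Set.univ ×ˢ Set.range Φ)) := by
          apply continuousOn_kap.comp (f := fun p : I × X => (p.1, (ψ p.2).2))
          · exact continuousOn_fst.prodMk (continuous_snd.comp_continuousOn h1)
          · rintro ⟨u, x⟩ ⟨⟨-, hx⟩, -, ⟨q, s⟩, rfl⟩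
            simp only [Set.mem_ofPred_eq, hψ1]
            rcases hS1 _ hx with h | ⟨q', s', hs', h⟩
            · intro h0
              have := hA1 q s h
              rw [h0] at this
              simp at this
            · have := hi h
              rw [Prod.mk.injEq] at this
              rw [← this.2]
              exact hs'
        exact hc.comp_continuousOn ((continuous_fst.comp_continuousOn h1).prodMk h2)
      apply hg.congr
      rintro ⟨u, x⟩ ⟨-, -, hx⟩
      exact hR1 _ hx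
  · intro x
    by_cases h : x ∈ Set.range Φ
    · obtain ⟨⟨q, s⟩, rfl⟩ := h
      rw [heq, kap_zero]
    · exact if_neg h
  · intro u x hx
    rcases hS1 x hx with h | ⟨q, s, hs, rfl⟩
    · rw [hfix u x h]; exact hx
    · rw [heq]
      exact hS3 _ _ (kap_ne_zero hs)
  · intro x hx
    rcases hS1 x hx with h | ⟨q, s, hs, rfl⟩
    · rw [hfix _ x h]; exact h
    · rw [heq]
      exact hA2 _ _ (norm_kap_one hs)

section radial

variable {X : Type*} [TopologicalSpace X] {A S : Set X} {Γ : Type*} [Group Γ]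

/-- A holonomy on `S` which is trivial on `A` is trivial, if `S` can be deformed in itself
into `A`. -/
theorem triv_of_deform {R : I × X → X} (cont : ContinuousOn R (Set.univ ×ˢ S))
    (zero : ∀ x ∈ S, R (0, x) = x) (mem : ∀ u, ∀ x ∈ S, R (u, x) ∈ S)
    (one : ∀ x ∈ S, R (1, x) ∈ A) (H : HolOn S Γ) (p : X → Γ)
    (hp : ∀ {x y : X} (γ : Path x y), (∀ t, γ t ∈ A) → H.hol γ = (p x)⁻¹ * p y) : H.Triv := by
  classical
  -- the radial path
  have hrad : ∀ x, x ∈ S → ∃ r : Path x (R (1, x)), ∀ u, r u = R (u, x) := by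
    intro x hx
    refine ⟨⟨⟨fun u => R (u, x), ?_⟩, zero x hx, rfl⟩, fun u => rfl⟩
    rw [← continuousOn_univ]
    exact cont.comp (by fun_prop) (fun u _ => ⟨trivial, hx⟩)
  choose r hr using hrad
  refine ⟨fun x => if h : x ∈ S then p (R (1, x)) * (H.hol (r x h))⁻¹ else 1, ?_⟩
  intro x y γ hγ
  have hx : x ∈ S := by simpa using hγ 0
  have hy : y ∈ S := by simpa using hγ 1
  simp only [dif_pos hx, dif_pos hy]
  let F : I × I → X := fun q => R (q.2, γ q.1)
  have hF : Continuous F := by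
    rw [← continuousOn_univ]
    exact cont.comp (f := fun q : I × I => (q.2, γ q.1)) (by fun_prop)
      (fun q _ => ⟨trivial, hγ _⟩)
  have htop : ∃ top : Path (R (1, x)) (R (1, y)), ∀ t, top t = F (t, 1) :=
    ⟨⟨⟨fun t => F (t, 1), by fun_prop⟩, by simp [F], by simp [F]⟩, fun t => rfl⟩
  obtain ⟨top, htop⟩ := htop
  have key := hol_square H F hF (fun q => mem _ _ (hγ _)) γ (r y hy) (r x hx) top
    (fun t => (zero _ (hγ _)).symm) (fun t => by rw [hr y hy]; simp [F])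
    (fun t => by rw [hr x hx]; simp [F]) htop
  have h2 : H.hol top = (p (R (1, x)))⁻¹ * p (R (1, y)) := by
    apply hp
    intro t
    rw [htop]
    exact one _ (hγ _)
  rw [h2] at key
  rw [eq_comm, ← mul_right_cancel_iff (a := H.hol (r y hy)), key]
  group

/-- A holonomy which is trivial on `A` is trivial on `S`. -/
theorem Radial.triv {Q : Type*} [TopologicalSpace Q] {Φ : Q × D2 → X} {R : I × X → X}
    (hR : Radial Φ A S R) (H : HolOn S Γ) (p : X → Γ)
    (hp : ∀ {x y : X} (γ : Path x y), (∀ t, γ t ∈ A) → H.hol γ = (p x)⁻¹ * p y) : H.Triv :=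
  triv_of_deform hR.cont (fun x _ => hR.zero x) hR.mem hR.one H p hp

end radial

end Pool.Agent.Helper84.Maz
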