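import Mathlib
import Pool.Agent.Helper84.Maz.Radial

/-!
# The pieces of the handlebody
-/

set_option autoImplicit false
set_option linter.unusedSectionVars false

namespace Pool.Agent.Helper84.Maz

open Pool.Agent.Helper26.Maz unitInterval

/-- The exterior of the open tube. -/
def Ext (φ : C26 × D2 → C4 × S2) : Set (C4 × S2) := (φ '' {p | ‖(p.2 : ℂ)‖ < 1})ᶜ

theorem norm_le_one (s : D2) : ‖(s : ℂ)‖ ≤ 1 := mem_closedBall_zero_iff.mp s.2

theorem norm_bz (t : C26) : ‖(bz t : ℂ)‖ = 1 := by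
  simp [bz, Circle.norm_coe]

theorem exists_bz {z : D2} (hz : ‖(z : ℂ)‖ = 1) : ∃ t : C26, bz t = z := by
  obtain ⟨t, ht⟩ := (AddCircle.homeomorphCircle (T := 26) (by norm_num)).surjective
    ⟨(z : ℂ), by rw [Submonoid.unitSphere]; exact mem_sphere_zero_iff_norm.mpr hz⟩
  refine ⟨t, Subtype.ext ?_⟩
  rw [AddCircle.homeomorphCircle_apply] at ht
  change ((AddCircle.toCircle t : Circle) : ℂ) = z
  rw [ht]

theorem continuous_bz : Continuous bz := by
  apply Continuous.subtype_mk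
  exact continuous_subtype_val.comp AddCircle.continuous_toCircle

theorem bz_zero : bz 0 = d1 := by
  apply Subtype.ext
  simp [bz, d1]

theorem coe_ne_zero_iff {s : D2} : (s : ℂ) ≠ 0 ↔ s ≠ d0 := by
  rw [not_iff_not]
  constructor
  · intro h; exact Subtype.ext h
  · rintro rfl; rfl

section tube

variable {φ : C26 × D2 → C4 × S2}

theorem mem_KM (hφ : IsTube φ) {t : C26} {s : D2} : φ (t, s) ∈ KM ↔ s = d0 := by
  obtain ⟨hc, hi, ho, hcore, -⟩ := hφ
  constructor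
  · rintro ⟨_, ⟨t', rfl⟩, h⟩
    rw [← hcore] at h
    have := hi h
    rw [Prod.mk.injEq] at this
    exact this.2.symm
  · rintro rfl
    rw [hcore]
    exact ⟨_, ⟨t, rfl⟩, rfl⟩

theorem KM_subset (hφ : IsTube φ) {x : C4 × S2} (hx : x ∈ KM) : ∃ t, x = φ (t, d0) := by
  obtain ⟨hc, hi, ho, hcore, -⟩ := hφ
  obtain ⟨_, ⟨t', rfl⟩, rfl⟩ := hx
  exact ⟨t', (hcore t').symm⟩

theorem mem_Ext (hφ : IsTube φ) {t : C26} {s : D2} : φ (t, s) ∈ Ext φ ↔ ‖(s : ℂ)‖ = 1 := by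
  obtain ⟨hc, hi, ho, hcore, -⟩ := hφ
  constructor
  · intro h
    rcases (norm_le_one s).lt_or_eq with h' | h'
    · exact absurd ⟨(t, s), h', rfl⟩ h
    · exact h'
  · rintro h ⟨⟨t', s'⟩, h', h''⟩
    have := hi h''
    rw [Prod.mk.injEq] at this
    obtain ⟨rfl, rfl⟩ := this
    exact absurd h (ne_of_lt h')

theorem isClosed_Ext (hφ : IsTube φ) : IsClosed (Ext φ) := hφ.2.2.1.isClosed_compl

theorem Ext_subset (hφ : IsTube φ) : Ext φ ⊆ KMᶜ := by
  intro x hx hx'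
  obtain ⟨t, rfl⟩ := KM_subset hφ hx'
  rw [mem_Ext hφ] at hx
  simp [d0] at hx

theorem exists_radial_tube (hφ : IsTube φ) : ∃ R, Radial φ (Ext φ) KMᶜ R := by
  apply exists_radial φ hφ.1 hφ.2.1 _ _ (isClosed_Ext hφ)
  · intro t s; exact (mem_Ext hφ).mp
  · intro t s; exact (mem_Ext hφ).mpr
  · intro x hx
    by_cases h : x ∈ Ext φ
    · exact Or.inl h
    · right
      rw [Ext, Set.notMem_compl_iff] at h
      obtain ⟨⟨t, s⟩, -, rfl⟩ := h
      refine ⟨t, s, ?_, rfl⟩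
      rw [coe_ne_zero_iff]
      intro h'
      exact hx ((mem_KM hφ).mpr h')
  · intro t s hs h
    rw [coe_ne_zero_iff] at hs
    exact hs ((mem_KM hφ).mp h)

end tube

section W

variable {W : Type*} [TopologicalSpace W] [T2Space W] {φ : C26 × D2 → C4 × S2}
  {iA : C4 × B3 → W} {iH : D2 × D2 → W}

theorem continuous_toB : Continuous toB := by
  unfold toB
  fun_prop

theorem injective_toB : Function.Injective toB := by
  rintro ⟨a, b⟩ ⟨a', b'⟩ h
  simp only [toB, Prod.mk.injEq, Subtype.mk.injEq] at h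
  obtain ⟨rfl, h⟩ := h
  rw [Prod.mk.injEq]
  exact ⟨rfl, Subtype.ext h⟩

/-- The unit circle in the disk. -/
abbrev Qc : Type := {s : D2 // ‖(s : ℂ)‖ = 1}

instance : CompactSpace Qc := by
  apply isCompact_iff_compactSpace.mp
  apply IsClosed.isCompact
  exact isClosed_eq (by fun_prop) continuous_const

instance : Nonempty Qc := ⟨⟨d1, by simp [d1]⟩⟩

/-- The solid torus in the boundary. -/
def Phi (iH : D2 × D2 → W) (p : Qc × D2) : W := iH (p.2, p.1)

/-- The exterior of the tube in `W`. -/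
def AW (φ : C26 × D2 → C4 × S2) (iA : C4 × B3 → W) : Set W := (iA ∘ toB) '' Ext φ

/-- The boundary without the core of the solid torus. -/
def SW (φ : C26 × D2 → C4 × S2) (iA : C4 × B3 → W) (iH : D2 × D2 → W) : Set W :=
  AW φ iA ∪ Phi iH '' {p | (p.2 : ℂ) ≠ 0}

theorem iH_bz (hW : IsAttached W φ iA iH) (t : C26) (s : D2) :
    iH (bz t, s) = iA (toB (φ (t, s))) :=
  ((hW.2.2.2.2.2 _ _).mpr ⟨t, s, rfl, rfl⟩).symm

theorem continuous_jA (hW : IsAttached W φ iA iH) : Continuous (iA ∘ toB) :=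
  hW.1.comp continuous_toB

theorem injective_jA (hW : IsAttached W φ iA iH) : Function.Injective (iA ∘ toB) :=
  hW.2.1.comp injective_toB

theorem continuous_Phi (hW : IsAttached W φ iA iH) : Continuous (Phi iH) := by
  have := hW.2.2.1
  unfold Phi
  fun_prop

theorem injective_Phi (hW : IsAttached W φ iA iH) : Function.Injective (Phi iH) := by
  rintro ⟨a, b⟩ ⟨a', b'⟩ h
  have := hW.2.2.2.1 h
  simp only [Prod.mk.injEq] at this
  rw [Prod.mk.injEq]
  exact ⟨Subtype.ext this.2, this.1⟩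

instance : CompactSpace S2 := isCompact_iff_compactSpace.mp (isCompact_sphere _ _)

theorem isClosed_AW (hφ : IsTube φ) (hW : IsAttached W φ iA iH) : IsClosed (AW φ iA) :=
  ((isClosed_Ext hφ).isCompact.image (continuous_jA hW)).isClosed

theorem mem_AW (hφ : IsTube φ) (hW : IsAttached W φ iA iH) {z s : D2} (hs : ‖(s : ℂ)‖ = 1) :
    iH (z, s) ∈ AW φ iA ↔ ‖(z : ℂ)‖ = 1 := by
  constructor
  · rintro ⟨e, he, h⟩
    obtain ⟨t, s', -, h2⟩ := (hW.2.2.2.2.2 _ _).mp h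
    rw [Prod.mk.injEq] at h2
    rw [h2.1]
    exact norm_bz t
  · intro hz
    obtain ⟨t, rfl⟩ := exists_bz hz
    rw [iH_bz hW]
    exact ⟨_, (mem_Ext hφ).mpr hs, rfl⟩

theorem bdW_eq : bdW φ iA iH = AW φ iA ∪ Set.range (Phi iH) := by
  unfold bdW AW
  congr 1
  ext w
  constructor
  · rintro ⟨⟨z, s⟩, hs, rfl⟩
    exact ⟨(⟨s, hs⟩, z), rfl⟩
  · rintro ⟨⟨⟨s, hs⟩, z⟩, rfl⟩
    exact ⟨(z, s), hs, rfl⟩

theorem SW_subset : SW φ iA iH ⊆ bdW φ iA iH := by
  rw [bdW_eq]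
  apply Set.union_subset_union_right
  exact Set.image_subset_range _ _

theorem exists_radial_W (hφ : IsTube φ) (hW : IsAttached W φ iA iH) :
    ∃ R, Radial (Phi iH) (AW φ iA) (SW φ iA iH) R := by
  apply exists_radial (Phi iH) (continuous_Phi hW) (injective_Phi hW) _ _ (isClosed_AW hφ hW)
  · rintro ⟨s, hs⟩ z; exact (mem_AW hφ hW hs).mp
  · rintro ⟨s, hs⟩ z; exact (mem_AW hφ hW hs).mpr
  · rintro x (hx | ⟨⟨q, z⟩, hz, rfl⟩)
    · exact Or.inl hx
    · exact Or.inr ⟨q, z, hz, rfl⟩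
  · intro q s hs
    exact Or.inr ⟨(q, s), hs, rfl⟩

end W

end Pool.Agent.Helper84.Maz
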