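import Mathlib
import Pool.Agent.Helper84.Maz.Geo
import Pool.Agent.Helper96.MazGen

/-!
# The handle part of the boundary: connectedness and triviality
-/

set_option autoImplicit false
set_option linter.unusedSectionVars false

namespace Pool.Agent.Helper84.Maz

open Pool.Agent.Helper26.Maz unitInterval

variable {W : Type*} [TopologicalSpace W] [T2Space W] {φ : C26 × D2 → C4 × S2}
  {iA : C4 × B3 → W} {iH : D2 × D2 → W}

theorem pathConnected_C26 : PathConnectedSpace C26 :=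
  Function.Surjective.pathConnectedSpace (X := ℝ) (f := fun x : ℝ => (x : C26))
    (fun x => QuotientAddGroup.mk_surjective x) (AddCircle.continuous_mk' _)

theorem pathConnected_Qc : PathConnectedSpace Qc := by
  have := pathConnected_C26
  apply Function.Surjective.pathConnectedSpace (X := C26)
    (f := fun t => (⟨bz t, norm_bz t⟩ : Qc))
  · rintro ⟨s, hs⟩
    obtain ⟨t, rfl⟩ := exists_bz hs
    exact ⟨t, rfl⟩
  · exact continuous_bz.subtype_mk _

theorem pathConnected_D2 : PathConnectedSpace D2 :=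
  isPathConnected_iff_pathConnectedSpace.mp
    ((convex_closedBall (0 : ℂ) 1).isPathConnected ⟨0, by simp⟩)

theorem isPathConnected_Ext (hφ : IsTube φ) (h : IsPathConnected (KMᶜ : Set (C4 × S2))) :
    IsPathConnected (Ext φ) := by
  obtain ⟨R, hR⟩ := exists_radial_tube hφ
  have h1 : Ext φ = (fun x => R (1, x)) '' KMᶜ := by
    apply Set.Subset.antisymm
    · intro x hx
      exact ⟨x, Ext_subset hφ hx, hR.fix 1 x hx⟩
    · rintro _ ⟨x, hx, rfl⟩
      exact hR.one x hx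
  rw [h1]
  apply h.image'
  exact hR.cont.comp (by fun_prop) (fun x hx => ⟨trivial, hx⟩)

theorem isPathConnected_range_Phi (hW : IsAttached W φ iA iH) :
    IsPathConnected (Set.range (Phi iH)) := by
  have := pathConnected_Qc
  have := pathConnected_D2
  rw [← Set.image_univ]
  exact isPathConnected_univ.image (continuous_Phi hW)

theorem A3_conn (hφ : IsTube φ) (hW : IsAttached W φ iA iH)
    (h : IsPathConnected (KMᶜ : Set (C4 × S2))) :
    IsPathConnected (bdW φ iA iH) := by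
  rw [bdW_eq]
  apply IsPathConnected.union ((isPathConnected_Ext hφ h).image (continuous_jA hW))
    (isPathConnected_range_Phi hW)
  have h1 : ‖(d1 : ℂ)‖ = 1 := by simp [d1]
  exact ⟨iH (bz 0, d1), (mem_AW hφ hW h1).mpr (norm_bz 0), (⟨d1, h1⟩, bz 0), rfl⟩

/-- The straight push to the point `1`. -/
noncomputable def toOne (p : I × D2) : D2 :=
  ⟨(1 - (p.1 : ℝ)) • (p.2 : ℂ) + (p.1 : ℝ) • (1 : ℂ),
    (convex_closedBall (0 : ℂ) 1) p.2.2 (by simp) (sub_nonneg.mpr p.1.2.2) p.1.2.1 (by ring)⟩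

theorem continuous_toOne : Continuous toOne := by
  apply Continuous.subtype_mk
  fun_prop

theorem toOne_zero (z : D2) : toOne (0, z) = z := by
  apply Subtype.ext
  simp [toOne]

theorem toOne_one (z : D2) : toOne (1, z) = d1 := by
  apply Subtype.ext
  simp [toOne, d1]

/-- Scaling of points of the disk. -/
noncomputable def sc (p : I × D2) : D2 :=
  ⟨(p.1 : ℝ) • (p.2 : ℂ), by
    rw [mem_closedBall_zero_iff, norm_smul, Real.norm_eq_abs, abs_of_nonneg p.1.2.1]
    exact mul_le_one₀ p.1.2.2 (norm_nonneg _) (norm_le_one p.2)⟩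

theorem continuous_sc : Continuous sc := by
  apply Continuous.subtype_mk
  fun_prop

theorem norm_sc (u : I) (z : D2) : ‖(sc (u, z) : ℂ)‖ = u * ‖(z : ℂ)‖ := by
  change ‖(u : ℝ) • (z : ℂ)‖ = _
  rw [norm_smul, Real.norm_eq_abs, abs_of_nonneg u.2.1]

theorem simply_D2 : SimplyConnectedSpace D2 := by
  have : ContractibleSpace D2 :=
    (convex_closedBall (0 : ℂ) 1).contractibleSpace ⟨0, by simp⟩
  exact SimplyConnectedSpace.ofContractible _

/-- The loop in the disk. -/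
noncomputable def bzLoop : Path (bz 0) (bz 0) where
  toFun t := bz ((26 * (t : ℝ) : ℝ) : C26)
  continuous_toFun := by
    have := continuous_bz
    fun_prop
  source' := by simp
  target' := by
    have h : ((26 : ℝ) : C26) = 0 := AddCircle.coe_period 26
    simp [h]

theorem isPathConnected_punctured (hW : IsAttached W φ iA iH) :
    IsPathConnected (Phi iH '' {p : Qc × D2 | (p.2 : ℂ) ≠ 0 ∧ ‖(p.2 : ℂ)‖ < 1}) := by
  have hQ := pathConnected_Qc
  have hC := pathConnected_C26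
  let g : Qc × ℝ × C26 → Qc × D2 := fun q =>
    (q.1, sc (Set.projIcc (0 : ℝ) 1 zero_le_one q.2.1, bz q.2.2))
  have hg : Continuous g := by
    have := continuous_bz
    have := continuous_sc
    fun_prop
  have h1 : {p : Qc × D2 | (p.2 : ℂ) ≠ 0 ∧ ‖(p.2 : ℂ)‖ < 1} =
      g '' (Set.univ ×ˢ (Set.Ioo (0 : ℝ) 1 ×ˢ Set.univ)) := by
    ext ⟨q, z⟩
    constructor
    · rintro ⟨h0, h1⟩
      simp only at h0 h1
      have hpos : 0 < ‖(z : ℂ)‖ := norm_pos_iff.mpr h0
      have hz1 := norm_kap_one h0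
      obtain ⟨t, ht⟩ := exists_bz hz1
      refine ⟨(q, ‖(z : ℂ)‖, t), ⟨trivial, ⟨hpos, h1⟩, trivial⟩, ?_⟩
      simp only [g, Prod.mk.injEq, true_and]
      apply Subtype.ext
      rw [ht, Set.projIcc_of_mem zero_le_one (x := ‖(z : ℂ)‖) ⟨hpos.le, h1.le⟩]
      change (‖(z : ℂ)‖ : ℝ) • (kap (1, z) : ℂ) = z
      rw [kap_coe, smul_smul]
      have : ‖(z : ℂ)‖ * (1 - ((1 : I) : ℝ) + ((1 : I) : ℝ) / ‖(z : ℂ)‖) = 1 := by
        simp [hpos.ne']
      simp only at this ⊢
      rw [this, one_smul]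
    · rintro ⟨⟨q', r, t⟩, ⟨-, hr, -⟩, h⟩
      simp only [g, Prod.mk.injEq] at h
      obtain ⟨rfl, rfl⟩ := h
      have h2 : ‖(sc (Set.projIcc (0 : ℝ) 1 zero_le_one r, bz t) : ℂ)‖ = r := by
        rw [norm_sc, norm_bz, mul_one, Set.projIcc_of_mem zero_le_one (x := r)
          ⟨hr.1.le, hr.2.le⟩]
      simp only [Set.mem_ofPred_eq]
      rw [← norm_pos_iff, h2]
      exact hr
  rw [h1, ← Set.image_comp]
  refine IsPathConnected.image ?_ ((continuous_Phi hW).comp hg)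
  refine IsPathConnected.prod isPathConnected_univ (IsPathConnected.prod ?_ isPathConnected_univ)
  exact (convex_Ioo (0 : ℝ) 1).isPathConnected ⟨1 / 2, by norm_num, by norm_num⟩

/-- Restriction of triviality. -/
theorem triv_mono {X : Type*} [TopologicalSpace X] {Γ : Type*} [Group Γ] {S T T' : Set X}
    (H : HolOn S Γ) (hT : T ⊆ S) (hT' : T' ⊆ S) (h : T' ⊆ T) (ht : (H.restrict hT).Triv) :
    (H.restrict hT').Triv := by
  obtain ⟨p, hp⟩ := ht
  exact ⟨p, fun γ hγ => hp γ (fun t => h (hγ t))⟩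

/-- The holonomy around the boundary of the disk is trivial. -/
theorem hol_disk {X : Type*} [TopologicalSpace X] {Γ : Type*} [Group Γ] {S : Set X}
    (H : HolOn S Γ) (f : D2 → X) (hf : Continuous f) (hS : ∀ z, f z ∈ S) {x : X}
    (γ : Path x x) (hγ : ∀ t : I, γ t = f (bz ((26 * (t : ℝ) : ℝ) : C26))) : H.hol γ = 1 := by
  have := simply_D2
  have h1 := hol_map_eq H ⟨f, hf⟩ hS bzLoop (Path.refl (bz 0))
  have h2 : H.hol γ = H.hol (bzLoop.map (⟨f, hf⟩ : C(D2, X)).continuous) :=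
    hol_congr' H _ _ (fun t => by rw [hγ]; rfl)
  rw [h2, h1, ← hol_refl H (hS (bz 0))]
  exact hol_congr' H _ _ (fun t => rfl)

theorem norm_d1 : ‖(d1 : ℂ)‖ = 1 := by simp [d1]

/-- A holonomy on the boundary is trivial on the exterior of the tube. -/
theorem triv_AW {Γ : Type*} [Group Γ] (hφ : IsTube φ) (hW : IsAttached W φ iA iH)
    (ℓ : C(C26, C4 × S2)) (hℓ : ∀ t, ℓ t = φ (t, d1))
    (h : ∀ H : HolOn (KMᶜ : Set (C4 × S2)) Γ, H.loop ℓ = 1 → H.Triv)
    (H : HolOn (bdW φ iA iH) Γ) :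
    ∃ p : W → Γ, ∀ {x y : W} (γ : Path x y), (∀ t, γ t ∈ AW φ iA) →
      H.hol γ = (p x)⁻¹ * p y := by
  obtain ⟨R, hR⟩ := exists_radial_tube hφ
  have hAb : AW φ iA ⊆ bdW φ iA iH := by
    rw [bdW_eq]; exact Set.subset_union_left
  have hfc : ContinuousOn (fun x => iA (toB (R (1, x)))) (KMᶜ : Set (C4 × S2)) :=
    (continuous_jA hW).comp_continuousOn
      (hR.cont.comp (f := fun x => ((1 : I), x)) (by fun_prop) (fun x hx => ⟨trivial, hx⟩))
  obtain ⟨H1, hH1⟩ := HolOn.exists_pull (fun x => iA (toB (R (1, x)))) hfc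
    (T := bdW φ iA iH) (fun x hx => hAb ⟨_, hR.one x hx, rfl⟩) H
  have hℓE : ∀ t, ℓ t ∈ Ext φ := fun t => by
    rw [hℓ]; exact (mem_Ext hφ).mpr norm_d1
  have hloop : H1.loop ℓ = 1 := by
    have hγ' : ∃ γ' : Path (iA (toB (R (1, ℓ 0)))) (iA (toB (R (1, ℓ 0)))),
        ∀ t : I, γ' t = iH (bz ((26 * (t : ℝ) : ℝ) : C26), d1) := by
      have e : iA (toB (R (1, ℓ 0))) = iH (bz 0, d1) := by
        rw [hR.fix 1 _ (hℓE 0), hℓ, iH_bz hW]
      refine ⟨(bzLoop.map (f := fun z => iH (z, d1)) ?_).cast e e, fun t => rfl⟩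
      have := hW.2.2.1
      fun_prop
    obtain ⟨γ', hγ'⟩ := hγ'
    have h1 : H1.loop ℓ = H.hol γ' := by
      apply hH1
      · intro t
        exact Ext_subset hφ (hℓE _)
      · intro t
        rw [hγ', iH_bz hW, ← hℓ]
        simp only [Path.coe_mk_mk]
        rw [hR.fix 1 _ (hℓE _)]
    rw [h1]
    apply hol_disk H (fun z => iH (z, d1)) _ _ γ' hγ'
    · have := hW.2.2.1
      fun_prop
    · intro z
      rw [bdW_eq]
      exact Or.inr ⟨(⟨d1, norm_d1⟩, z), rfl⟩
  obtain ⟨p, hp⟩ := h H1 hloop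
  have hne : Nonempty (C4 × S2) := ⟨φ (0, d0)⟩
  set ψ := Function.invFun (iA ∘ toB) with hψ
  have hψ1 : ∀ e, ψ ((iA ∘ toB) e) = e := Function.leftInverse_invFun (injective_jA hW)
  have hψc : ContinuousOn ψ (Set.range (iA ∘ toB)) :=
    continuousOn_inv (continuous_jA hW) (injective_jA hW)
  refine ⟨fun w => p (ψ w), ?_⟩
  intro x y γ hγ
  have hγE : ∀ t, ψ (γ t) ∈ Ext φ := by
    intro t
    obtain ⟨e, he, h⟩ := hγ t
    rw [← h, hψ1]
    exact he
  have hγψ : ∀ t, iA (toB (ψ (γ t))) = γ t := by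
    intro t
    obtain ⟨e, he, h⟩ := hγ t
    rw [← h, hψ1]
    rfl
  have hlift : ∃ δ : Path (ψ x) (ψ y), ∀ t, δ t = ψ (γ t) := by
    refine ⟨⟨⟨fun t => ψ (γ t), ?_⟩, by simp, by simp⟩, fun t => rfl⟩
    rw [← continuousOn_univ]
    exact hψc.comp (by fun_prop) (fun t _ => by
      obtain ⟨e, he, h⟩ := hγ t
      exact ⟨e, h⟩)
  obtain ⟨δ, hδ⟩ := hlift
  have e0 : iA (toB (R (1, ψ x))) = x := by
    have := hγψ 0
    have h2 := hγE 0
    rw [γ.source] at this h2
    rw [hR.fix 1 _ h2, this]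
  have e1 : iA (toB (R (1, ψ y))) = y := by
    have := hγψ 1
    have h2 := hγE 1
    rw [γ.target] at this h2
    rw [hR.fix 1 _ h2, this]
  rw [← hp δ (fun t => by rw [hδ]; exact Ext_subset hφ (hγE t)),
    hH1 δ (fun t => by rw [hδ]; exact Ext_subset hφ (hγE t)) (γ.cast e0 e1)]
  · exact hol_congr' H _ _ (fun t => rfl)
  · intro t
    rw [hδ]
    change γ t = _
    rw [hR.fix 1 _ (hγE t), hγψ]

/-- A holonomy on the boundary which is trivial on the exterior of the tube is trivial on the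
solid torus. -/
theorem triv_range_Phi {Γ : Type*} [Group Γ] (hφ : IsTube φ) (hW : IsAttached W φ iA iH)
    (hs : Set.range (Phi iH) ⊆ bdW φ iA iH) (H : HolOn (bdW φ iA iH) Γ) (p : W → Γ)
    (hp : ∀ {x y : W} (γ : Path x y), (∀ t, γ t ∈ AW φ iA) → H.hol γ = (p x)⁻¹ * p y) :
    (H.restrict hs).Triv := by
  set ψ := Function.invFun (Phi iH) with hψ
  have hψ1 : ∀ e, ψ (Phi iH e) = e := Function.leftInverse_invFun (injective_Phi hW)
  have hψc : ContinuousOn ψ (Set.range (Phi iH)) :=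
    continuousOn_inv (continuous_Phi hW) (injective_Phi hW)
  have hPc := continuous_Phi hW
  have h1c : ContinuousOn (fun q : I × W => ψ q.2) (Set.univ ×ˢ Set.range (Phi iH)) :=
    hψc.comp (by fun_prop) (fun q hq => hq.2)
  refine triv_of_deform (A := AW φ iA)
    (R := fun q => Phi iH ((ψ q.2).1, toOne (q.1, (ψ q.2).2))) ?_ ?_ ?_ ?_ _ p
    (fun γ hγ => hp γ hγ)
  · refine hPc.comp_continuousOn ((continuous_fst.comp_continuousOn h1c).prodMk
      (continuous_toOne.comp_continuousOn (continuousOn_fst.prodMk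
        (continuous_snd.comp_continuousOn h1c))))
  · rintro _ ⟨q, rfl⟩
    simp only [hψ1, toOne_zero]
  · rintro u _ ⟨q, rfl⟩
    exact ⟨_, rfl⟩
  · rintro _ ⟨q, rfl⟩
    simp only [hψ1, toOne_one]
    exact (mem_AW hφ hW q.1.2).mpr norm_d1

theorem A3_triv {Γ : Type*} [Group Γ] (hφ : IsTube φ) (hW : IsAttached W φ iA iH)
    (_hc : IsPathConnected (KMᶜ : Set (C4 × S2))) (ℓ : C(C26, C4 × S2))
    (hℓ : ∀ t, ℓ t = φ (t, d1))
    (h : ∀ H : HolOn (KMᶜ : Set (C4 × S2)) Γ, H.loop ℓ = 1 → H.Triv)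
    (H : HolOn (bdW φ iA iH) Γ) : H.Triv := by
  obtain ⟨p, hp⟩ := triv_AW hφ hW ℓ hℓ h H
  obtain ⟨R, hR⟩ := exists_radial_W hφ hW
  have hs : Set.range (Phi iH) ⊆ bdW φ iA iH := by
    rw [bdW_eq]; exact Set.subset_union_right
  have t1 : (H.restrict (SW_subset : SW φ iA iH ⊆ _)).Triv :=
    hR.triv _ p (fun γ hγ => hp γ hγ)
  have t2 := triv_range_Phi hφ hW hs H p hp
  have hcore : IsClosed (iH '' {q : D2 × D2 | q.1 = d0}) := by
    apply IsCompact.isClosed
    apply IsCompact.image _ hW.2.2.1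
    exact (isClosed_eq continuous_fst continuous_const).isCompact
  have hB : CompactSpace B3 := isCompact_iff_compactSpace.mp (isCompact_closedBall _ _)
  have hrA : IsClosed (Set.range iA) := (isCompact_range hW.1).isClosed
  refine HolOn.triv_of_two H (iH '' {q : D2 × D2 | q.1 = d0})ᶜ (Set.range iA)ᶜ
    hcore.isOpen_compl hrA.isOpen_compl ?_ (triv_mono H _ _ ?_ t1) (triv_mono H _ _ ?_ t2) ?_
  · intro w hw
    by_contra hcon
    simp only [Set.mem_union, Set.mem_compl_iff, not_or, not_not] at hcon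
    obtain ⟨⟨⟨z, s⟩, hz, rfl⟩, ⟨a, ha⟩⟩ := hcon
    obtain ⟨t, s', -, h2⟩ := (hW.2.2.2.2.2 _ _).mp ha
    simp only [Set.mem_ofPred_eq] at hz
    rw [Prod.mk.injEq] at h2
    have := norm_bz t
    rw [← h2.1, hz] at this
    simp [d0] at this
  · rintro w ⟨h1, h2⟩
    rw [bdW_eq] at h2
    rcases h2 with h2 | ⟨⟨q, z⟩, rfl⟩
    · exact Or.inl h2
    · refine Or.inr ⟨(q, z), ?_, rfl⟩
      simp only [Set.mem_ofPred_eq]
      rw [coe_ne_zero_iff]
      rintro rfl
      exact h1 ⟨(d0, q), rfl, rfl⟩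
  · rintro w ⟨h1, h2⟩
    rw [bdW_eq] at h2
    rcases h2 with ⟨e, he, rfl⟩ | h2
    · exact absurd ⟨_, rfl⟩ h1
    · exact h2
  · have e : (iH '' {q : D2 × D2 | q.1 = d0})ᶜ ∩ (Set.range iA)ᶜ ∩ bdW φ iA iH =
        Phi iH '' {p : Qc × D2 | (p.2 : ℂ) ≠ 0 ∧ ‖(p.2 : ℂ)‖ < 1} := by
      apply Set.Subset.antisymm
      · rintro w ⟨⟨h1, h3⟩, h2⟩
        rw [bdW_eq] at h2
        rcases h2 with ⟨e, he, rfl⟩ | ⟨⟨q, z⟩, rfl⟩
        · exact absurd ⟨_, rfl⟩ h3
        · refine ⟨(q, z), ⟨?_, ?_⟩, rfl⟩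
          · rw [coe_ne_zero_iff]
            rintro rfl
            exact h1 ⟨(d0, q), rfl, rfl⟩
          · rcases (norm_le_one z).lt_or_eq with h' | h'
            · exact h'
            · exfalso
              obtain ⟨e, he, h4⟩ := (mem_AW hφ hW q.2).mpr h'
              exact h3 ⟨_, h4⟩
      · rintro _ ⟨⟨q, z⟩, ⟨h0, h1⟩, rfl⟩
        simp only at h0 h1
        refine ⟨⟨?_, ?_⟩, hs ⟨_, rfl⟩⟩
        · rintro ⟨⟨z', s'⟩, hz', h'⟩
          have := hW.2.2.2.1 h'
          rw [Prod.mk.injEq] at this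
          simp only [Set.mem_ofPred_eq] at hz'
          rw [coe_ne_zero_iff] at h0
          exact h0 (this.1.symm.trans hz')
        · rintro ⟨a, ha⟩
          obtain ⟨t, s', -, h2⟩ := (hW.2.2.2.2.2 _ _).mp ha
          rw [Prod.mk.injEq] at h2
          have := norm_bz t
          rw [← h2.1] at this
          exact h1.ne this
    rw [e]
    exact isPathConnected_punctured hW

end Pool.Agent.Helper84.Maz
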