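import Mathlib
import Pool.Agent.Helper84.Maz.Geo
import Pool.Agent.Helper96.MazGen

/-!
# Holonomies on a torus with trivial monodromy in one direction
-/

set_option autoImplicit false
set_option linter.unusedSectionVars false

namespace Pool.Agent.Helper84.Maz

open Pool.Agent.Helper26.Maz unitInterval

variable {Γ : Type*} [Group Γ]

/-- The torus. -/
def SY : Set (C26 × D2) := {y | ‖(y.2 : ℂ)‖ = 1}

/-- Pull back under a continuous map. -/
def pullC {X Y : Type*} [TopologicalSpace X] [TopologicalSpace Y] {S : Set X} {T : Set Y}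
    (f : C(X, Y)) (hm : ∀ x ∈ S, f x ∈ T) (H : HolOn T Γ) : HolOn S Γ where
  hol γ := H.hol (γ.map f.continuous)
  trans γ δ h h' := by
    rw [Path.map_trans]
    exact H.trans _ _ (fun t => hm _ (h t)) (fun t => hm _ (h' t))
  homot γ γ' h h' := H.homot _ _ (h.map f) (fun q => hm _ (h' q))

/-- Gauge transformation. -/
def gauge {X : Type*} [TopologicalSpace X] {S : Set X} (H : HolOn S Γ) (q : X → Γ) :
    HolOn S Γ where
  hol {x y} γ := (q x)⁻¹ * H.hol γ * q y
  trans γ δ h h' := by
    rw [H.trans γ δ h h']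
    group
  homot γ γ' h h' := by
    rw [H.homot γ γ' h h']

/-- The segment in the line. -/
def seg (a b : ℝ) : Path a b where
  toFun t := a + t * (b - a)
  continuous_toFun := by fun_prop
  source' := by simp
  target' := by simp

/-- The line in the torus. -/
def lineMap (s : D2) : C(ℝ, C26 × D2) where
  toFun x := ((x : C26), s)
  continuous_toFun := by
    have := AddCircle.continuous_mk' (26 : ℝ)
    exact (AddCircle.continuous_mk' (26 : ℝ)).prodMk continuous_const

theorem lineMap_apply (s : D2) (x : ℝ) : lineMap s x = ((x : C26), s) := rfl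

section H

variable (H : HolOn SY Γ) (hH : H.hol ((seg 0 26).map (lineMap d1).continuous) = 1)

include hH

theorem line_loop {s : D2} (hs : ‖(s : ℂ)‖ = 1) :
    H.hol ((seg 0 26).map (lineMap s).continuous) = 1 := by
  obtain ⟨t, rfl⟩ := exists_bz hs
  obtain ⟨x, rfl⟩ := QuotientAddGroup.mk_surjective t
  have hbc := continuous_bz
  have hc : ∀ v : ℝ → ℝ, Continuous v → Continuous fun t => ((v t : ℝ) : C26) := fun v hv =>
    (AddCircle.continuous_mk' (26 : ℝ)).comp hv
  let F : I × I → C26 × D2 := fun p =>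
    (((26 * (p.1 : ℝ) : ℝ) : C26), bz (((p.2 : ℝ) * x : ℝ) : C26))
  have h26 : ((26 : ℝ) : C26) = 0 := AddCircle.coe_period 26
  have hF : Continuous F := by fun_prop
  have hS : ∀ p, F p ∈ SY := fun p => norm_bz _
  let right : Path (F (1, 0)) (F (1, 1)) :=
    ⟨⟨fun t => F (1, t), by fun_prop⟩, rfl, rfl⟩
  let left : Path (F (0, 0)) (F (0, 1)) :=
    ⟨⟨fun t => F (0, t), by fun_prop⟩, rfl, rfl⟩
  let bot : Path (F (0, 0)) (F (1, 0)) :=
    ⟨⟨fun t => F (t, 0), by fun_prop⟩, rfl, rfl⟩
  let top : Path (F (0, 1)) (F (1, 1)) :=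
    ⟨⟨fun t => F (t, 1), by fun_prop⟩, rfl, rfl⟩
  have key := hol_square H F hF hS bot right left top (fun _ => rfl) (fun _ => rfl)
    (fun _ => rfl) (fun _ => rfl)
  have e1 : H.hol right = H.hol left := by
    apply hol_congr'
    intro t
    change F (1, t) = F (0, t)
    simp only [F]
    simp [h26]
  have e2 : H.hol bot = 1 := by
    rw [← hH]
    apply hol_congr'
    intro t
    change F (t, 0) = lineMap d1 (0 + t * (26 - 0))
    simp only [F, lineMap_apply]
    have : bz (((0 : I) : ℝ) * x : ℝ) = d1 := by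
      simp [bz_zero]
    rw [this, Prod.mk.injEq]
    refine ⟨?_, rfl⟩
    congr 1
    ring
  have e3 : H.hol top = H.hol ((seg 0 26).map (lineMap (bz (x : C26))).continuous) := by
    apply hol_congr'
    intro t
    change F (t, 1) = lineMap (bz (x : C26)) (0 + t * (26 - 0))
    simp only [F, lineMap_apply]
    rw [Prod.mk.injEq]
    refine ⟨?_, ?_⟩
    · congr 1
      ring
    · simp
  rw [e1, e2, e3, one_mul] at key
  exact (mul_eq_left.mp key.symm)

theorem line_add {s : D2} (hs : ‖(s : ℂ)‖ = 1) (r : ℝ) :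
    H.hol ((seg 0 (26 + r)).map (lineMap s).continuous) =
      H.hol ((seg 0 r).map (lineMap s).continuous) := by
  have h26 : ((26 : ℝ) : C26) = 0 := AddCircle.coe_period 26
  have hS : ∀ x, lineMap s x ∈ SY := fun x => hs
  rw [hol_map_eq H (lineMap s) hS (seg 0 (26 + r)) ((seg 0 26).trans (seg 26 (26 + r))),
    Path.map_trans, H.trans _ _ (fun t => hS _) (fun t => hS _), line_loop H hH hs, one_mul]
  apply hol_congr'
  intro t
  change lineMap s (26 + t * (26 + r - 26)) = lineMap s (0 + t * (r - 0))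
  simp only [lineMap_apply, Prod.mk.injEq, and_true]
  rw [AddCircle.coe_add, h26]
  simp

theorem line_int {s : D2} (hs : ‖(s : ℂ)‖ = 1) (r r' : ℝ) (h : (r : C26) = (r' : C26)) :
    H.hol ((seg 0 r).map (lineMap s).continuous) =
      H.hol ((seg 0 r').map (lineMap s).continuous) := by
  have key : ∀ n : ℤ, ∀ r : ℝ, H.hol ((seg 0 (26 * n + r)).map (lineMap s).continuous) =
      H.hol ((seg 0 r).map (lineMap s).continuous) := by
    intro n
    induction n using Int.induction_on with
    | zero => intro r; apply hol_congr'; intro t; simp [seg]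
    | succ n ih =>
      intro r
      rw [← ih r, ← line_add H hH hs (26 * (n : ℤ) + r)]
      apply hol_congr'
      intro t
      simp only [Path.map_coe, Function.comp_apply]
      congr 1
      simp only [seg, Path.coe_mk_mk]
      push_cast
      ring
    | pred n ih =>
      intro r
      rw [← ih r, ← line_add H hH hs (26 * ((-n - 1 : ℤ) : ℝ) + r)]
      apply hol_congr'
      intro t
      simp only [Path.map_coe, Function.comp_apply]
      congr 1
      simp only [seg, Path.coe_mk_mk]
      push_cast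
      ring
  obtain ⟨n, hn⟩ : ∃ n : ℤ, r = 26 * n + r' := by
    have h' : ((r - r' : ℝ) : C26) = 0 := by
      rw [AddCircle.coe_sub, h, sub_self]
    obtain ⟨n, hn⟩ := (AddCircle.coe_eq_zero_iff 26).mp h'
    refine ⟨n, ?_⟩
    rw [zsmul_eq_mul] at hn
    linarith
  rw [hn]
  exact key n r'

end H

/-- The representative of a point of the circle in `[a, a + 26)`. -/
noncomputable def rep (a : ℝ) (t : C26) : ℝ := (AddCircle.equivIco 26 a t : ℝ)

theorem coe_rep (a : ℝ) (t : C26) : ((rep a t : ℝ) : C26) = t := AddCircle.coe_equivIco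

theorem continuousAt_rep {a : ℝ} {t : C26} (h : t ≠ (a : C26)) : ContinuousAt (rep a) t :=
  continuous_subtype_val.continuousAt.comp (AddCircle.continuousAt_equivIco 26 a h)

/-- The projection of the torus to a meridian. -/
def zeroMap : C(C26 × D2, C26 × D2) where
  toFun y := (0, y.2)
  continuous_toFun := by fun_prop

theorem torus_local (H : HolOn SY Γ)
    (hH : H.hol ((seg 0 26).map (lineMap d1).continuous) = 1) (a : ℝ) {x y : C26 × D2}
    (γ : Path x y) (hγ : ∀ t, γ t ∈ {y : C26 × D2 | y.1 ≠ (a : C26)} ∩ SY) :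
    H.hol (γ.map zeroMap.continuous) *
        H.hol ((seg 0 (rep 0 y.1)).map (lineMap y.2).continuous) =
      H.hol ((seg 0 (rep 0 x.1)).map (lineMap x.2).continuous) * H.hol γ := by
  have hx := hγ 0
  have hy := hγ 1
  rw [γ.source] at hx
  rw [γ.target] at hy
  rw [line_int H hH hy.2 (rep 0 y.1) (rep a y.1) (by rw [coe_rep, coe_rep]),
    line_int H hH hx.2 (rep 0 x.1) (rep a x.1) (by rw [coe_rep, coe_rep])]
  have hc : ∀ v : I × I → ℝ, Continuous v → Continuous fun t => ((v t : ℝ) : C26) := fun v hv =>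
    (AddCircle.continuous_mk' (26 : ℝ)).comp hv
  have hr : Continuous fun t : I => rep a (γ t).1 := by
    rw [continuous_iff_continuousAt]
    intro t
    have h1 : ContinuousAt (fun t : I => (γ t).1) t := by fun_prop
    exact ContinuousAt.comp (f := fun t : I => (γ t).1) (continuousAt_rep (hγ t).1) h1
  let F : I × I → C26 × D2 := fun p => (((p.2 : ℝ) * rep a (γ p.1).1 : ℝ), (γ p.1).2)
  have hF : Continuous F := by
    refine Continuous.prodMk (hc (fun p => (p.2 : ℝ) * rep a (γ p.1).1) ?_) (by fun_prop)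
    exact Continuous.mul (by fun_prop) (hr.comp continuous_fst)
  let right : Path (F (1, 0)) (F (1, 1)) :=
    ⟨⟨fun t => F (1, t), by fun_prop⟩, rfl, rfl⟩
  let left : Path (F (0, 0)) (F (0, 1)) :=
    ⟨⟨fun t => F (0, t), by fun_prop⟩, rfl, rfl⟩
  let bot : Path (F (0, 0)) (F (1, 0)) :=
    ⟨⟨fun t => F (t, 0), by fun_prop⟩, rfl, rfl⟩
  let top : Path (F (0, 1)) (F (1, 1)) :=
    ⟨⟨fun t => F (t, 1), by fun_prop⟩, rfl, rfl⟩
  have key := hol_square H F hF (fun p => (hγ p.1).2) bot right left top (fun _ => rfl)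
    (fun _ => rfl) (fun _ => rfl) (fun _ => rfl)
  have e1 : H.hol (γ.map zeroMap.continuous) = H.hol bot := by
    apply hol_congr'
    intro t
    change ((0 : C26), (γ t).2) = F (t, 0)
    simp [F]
  have e2 : H.hol ((seg 0 (rep a y.1)).map (lineMap y.2).continuous) = H.hol right := by
    apply hol_congr'
    intro t
    change lineMap y.2 (0 + t * (rep a y.1 - 0)) = F (1, t)
    simp [F, lineMap_apply]
  have e3 : H.hol ((seg 0 (rep a x.1)).map (lineMap x.2).continuous) = H.hol left := by
    apply hol_congr'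
    intro t
    change lineMap x.2 (0 + t * (rep a x.1 - 0)) = F (0, t)
    simp [F, lineMap_apply]
  have e4 : H.hol γ = H.hol top := by
    apply hol_congr'
    intro t
    change γ t = F (t, 1)
    simp only [F]
    rw [Prod.ext_iff]
    simp [coe_rep]
  rw [e1, e2, e3, e4]
  exact key

theorem torus_gauge (H : HolOn SY Γ)
    (hH : H.hol ((seg 0 26).map (lineMap d1).continuous) = 1) :
    ∃ q : C26 × D2 → Γ, ∀ {x y : C26 × D2} (γ : Path x y), (∀ t, γ t ∈ SY) →
      H.hol γ = (q x)⁻¹ * H.hol (γ.map zeroMap.continuous) * q y := by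
  refine ⟨fun y => H.hol ((seg 0 (rep 0 y.1)).map (lineMap y.2).continuous), ?_⟩
  intro x y γ hγ
  refine HolOn.ext_local H (gauge (pullC zeroMap (fun y hy => hy) H)
    (fun y => H.hol ((seg 0 (rep 0 y.1)).map (lineMap y.2).continuous)))
    (fun b : Bool => {y : C26 × D2 | y.1 ≠ ((if b then 0 else 13 : ℝ) : C26)}) ?_ ?_ ?_ γ hγ
  · intro b
    exact isOpen_ne.preimage continuous_fst
  · intro y hy
    rw [Set.mem_iUnion]
    by_contra hcon
    push Not at hcon
    have h1 := hcon true
    have h2 := hcon false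
    simp only [Set.mem_ofPred_eq, not_not, if_true] at h1 h2
    rw [h1] at h2
    simp only [Bool.false_eq_true, if_false] at h2
    have h3 : ((13 : ℝ) : C26) = 0 := by rw [← h2]; simp
    obtain ⟨n, hn⟩ := (AddCircle.coe_eq_zero_iff 26).mp h3
    rw [zsmul_eq_mul] at hn
    have h4 : (n : ℝ) * 2 = 1 := by linarith
    have h5 : n * 2 = 1 := by exact_mod_cast h4
    omega
  · intro b x y γ hγ
    have key := torus_local H hH _ γ hγ
    change H.hol γ = _⁻¹ * H.hol (γ.map zeroMap.continuous) * _
    rw [mul_assoc, key]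
    group

end Pool.Agent.Helper84.Maz
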