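import Mathlib
import Pool.Agent.Helper84.Maz.A3a
import Pool.Agent.Helper84.Maz.Torus
import Pool.Agent.Helper85.MazVK

/-!
# The handle part of the boundary: extension of a nontrivial holonomy
-/

set_option autoImplicit false
set_option linter.unusedSectionVars false

namespace Pool.Agent.Helper84.Maz

open Pool.Agent.Helper26.Maz unitInterval

variable {W : Type*} [TopologicalSpace W] [T2Space W] {φ : C26 × D2 → C4 × S2}
  {iA : C4 × B3 → W} {iH : D2 × D2 → W}

/-- Gluing of two holonomies. -/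
theorem glue_two {X : Type*} [TopologicalSpace X] {Γ : Type*} [Group Γ] {S : Set X}
    (O₁ O₂ : Set X) (h₁ : IsOpen O₁) (h₂ : IsOpen O₂) (hS : S ⊆ O₁ ∪ O₂)
    (F₁ : HolOn (O₁ ∩ S) Γ) (F₂ : HolOn (O₂ ∩ S) Γ)
    (h : ∀ {x y : X} (γ : Path x y), (∀ t, γ t ∈ O₁ ∩ O₂ ∩ S) → F₁.hol γ = F₂.hol γ) :
    ∃ H : HolOn S Γ, ∀ {x y : X} (γ : Path x y), (∀ t, γ t ∈ O₁ ∩ S) → H.hol γ = F₁.hol γ := by
  obtain ⟨H, hH⟩ := HolOn.glue (S := S) (fun b : Bool => if b then O₁ else O₂)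
    (by intro b; cases b; exacts [h₂, h₁])
    (by
      intro x hx
      rw [Set.mem_iUnion]
      rcases hS hx with h | h
      · exact ⟨true, h⟩
      · exact ⟨false, h⟩)
    (fun b => match b with
      | true => F₁
      | false => F₂)
    (by
      intro i j x y γ hγ
      cases i <;> cases j
      · rfl
      · exact (h γ (fun t => ⟨⟨(hγ t).1.2, (hγ t).1.1⟩, (hγ t).2⟩)).symm
      · exact h γ hγ
      · rfl)
  exact ⟨H, fun γ hγ => hH true γ hγ⟩

theorem A3_exists {Γ : Type*} [Group Γ] (hφ : IsTube φ) (hW : IsAttached W φ iA iH)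
    (_hc : IsPathConnected (KMᶜ : Set (C4 × S2))) (ℓ : C(C26, C4 × S2))
    (hℓ : ∀ t, ℓ t = φ (t, d1))
    (H : HolOn (KMᶜ : Set (C4 × S2)) Γ) (h1 : H.loop ℓ = 1) (h2 : ¬ H.Triv) :
    ∃ H' : HolOn (bdW φ iA iH) Γ, ¬ H'.Triv := by
  classical
  have hφc := hφ.1
  -- the holonomy on the torus
  have hSYm : ∀ y ∈ SY, φ y ∈ (KMᶜ : Set (C4 × S2)) := by
    rintro ⟨t, s⟩ hs
    exact Ext_subset hφ ((mem_Ext hφ).mpr hs)
  set HT : HolOn SY Γ := pullC ⟨φ, hφc⟩ hSYm H with hHT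
  have hHT1 : HT.hol ((seg 0 26).map (lineMap d1).continuous) = 1 := by
    rw [← h1]
    change H.hol (((seg 0 26).map (lineMap d1).continuous).map hφc) = H.hol _
    apply hol_congr'
    intro t
    change φ (lineMap d1 (0 + t * (26 - 0))) = ℓ ((26 * (t : ℝ) : ℝ) : C26)
    rw [hℓ, lineMap_apply]
    congr 3
    ring
  obtain ⟨q, hq⟩ := torus_gauge HT hHT1
  -- the retraction
  obtain ⟨R, hR⟩ := exists_radial_W hφ hW
  have hne : Nonempty (C4 × S2) := ⟨φ (0, d0)⟩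
  set ψA := Function.invFun (iA ∘ toB) with hψA
  have hψA1 : ∀ e, ψA ((iA ∘ toB) e) = e := Function.leftInverse_invFun (injective_jA hW)
  have hψAc : ContinuousOn ψA (Set.range (iA ∘ toB)) :=
    continuousOn_inv (continuous_jA hW) (injective_jA hW)
  set ψP := Function.invFun (Phi iH) with hψP
  have hψP1 : ∀ e, ψP (Phi iH e) = e := Function.leftInverse_invFun (injective_Phi hW)
  have hψPc : ContinuousOn ψP (Set.range (Phi iH)) :=
    continuousOn_inv (continuous_Phi hW) (injective_Phi hW)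
  set ψφ := Function.invFun φ with hψφ
  have hψφ1 : ∀ e, ψφ (φ e) = e := Function.leftInverse_invFun hφ.2.1
  have hψφc : ContinuousOn ψφ (Set.range φ) := continuousOn_inv hφ.1 hφ.2.1
  let f : W → C4 × S2 := fun w => ψA (R (1, w))
  have hAr : AW φ iA ⊆ Set.range (iA ∘ toB) := Set.image_subset_range _ _
  have hfc : ContinuousOn f (SW φ iA iH) := by
    refine hψAc.comp (hR.cont.comp (f := fun x => ((1 : I), x)) (by fun_prop)
      (fun x hx => ⟨trivial, hx⟩)) (fun x hx => hAr (hR.one x hx))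
  have hfE : ∀ w ∈ SW φ iA iH, f w ∈ Ext φ := by
    intro w hw
    obtain ⟨e, he, h⟩ := hR.one w hw
    simp only [f]
    rw [← h, hψA1]
    exact he
  have hfA : ∀ e ∈ Ext φ, f (iA (toB e)) = e := by
    intro e he
    have hfix : R (1, iA (toB e)) = iA (toB e) := hR.fix 1 _ ⟨e, he, rfl⟩
    simp only [f]
    rw [hfix]
    exact hψA1 e
  -- on the punctured solid torus
  have hfP : ∀ (s : Qc) (z : D2), (z : ℂ) ≠ 0 → ∃ t : C26, f (Phi iH (s, z)) = φ (t, s) := by
    intro s z hz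
    obtain ⟨t, ht⟩ := exists_bz (norm_kap_one hz)
    refine ⟨t, ?_⟩
    simp only [f]
    rw [hR.eq]
    have : Phi iH (s, kap (1, z)) = (iA ∘ toB) (φ (t, s)) := by
      rw [← ht]
      exact iH_bz hW t s
    rw [this, hψA1]
  obtain ⟨F1, hF1⟩ := HolOn.exists_pull f hfc (T := (KMᶜ : Set (C4 × S2)))
    (fun x hx => Ext_subset hφ (hfE x hx)) H
  -- the second piece
  let g : W → C4 × S2 := fun w => φ (0, (ψP w).1)
  have hgc : ContinuousOn g (Set.range (Phi iH)) := by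
    refine hφc.comp_continuousOn (continuousOn_const.prodMk ?_)
    exact (continuous_subtype_val.comp continuous_fst).comp_continuousOn hψPc
  have hgm : Set.MapsTo g (Set.range (Phi iH)) (KMᶜ : Set (C4 × S2)) := by
    rintro _ ⟨⟨s, z⟩, rfl⟩
    simp only [g, hψP1]
    exact Ext_subset hφ ((mem_Ext hφ).mpr s.2)
  obtain ⟨G2, hG2⟩ := HolOn.exists_pull g hgc hgm H
  have hcore : IsClosed (iH '' {q : D2 × D2 | q.1 = d0}) := by
    apply IsCompact.isClosed
    apply IsCompact.image _ hW.2.2.1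
    exact (isClosed_eq continuous_fst continuous_const).isCompact
  have hB : CompactSpace B3 := isCompact_iff_compactSpace.mp (isCompact_closedBall _ _)
  have hrA : IsClosed (Set.range iA) := (isCompact_range hW.1).isClosed
  have hO1 : (iH '' {q : D2 × D2 | q.1 = d0})ᶜ ∩ bdW φ iA iH ⊆ SW φ iA iH := by
    rintro w ⟨h1, h2⟩
    rw [bdW_eq] at h2
    rcases h2 with h2 | ⟨⟨q, z⟩, rfl⟩
    · exact Or.inl h2
    · refine Or.inr ⟨(q, z), ?_, rfl⟩
      simp only [Set.mem_ofPred_eq]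
      rw [coe_ne_zero_iff]
      rintro rfl
      exact h1 ⟨(d0, q), rfl, rfl⟩
  have hO2 : (Set.range iA)ᶜ ∩ bdW φ iA iH ⊆ Set.range (Phi iH) := by
    rintro w ⟨h1, h2⟩
    rw [bdW_eq] at h2
    rcases h2 with ⟨e, he, rfl⟩ | h2
    · exact absurd ⟨_, rfl⟩ h1
    · exact h2
  obtain ⟨H', hH'⟩ := glue_two (S := bdW φ iA iH) (iH '' {q : D2 × D2 | q.1 = d0})ᶜ
    (Set.range iA)ᶜ hcore.isOpen_compl hrA.isOpen_compl
    (by
      intro w hw
      by_contra hcon
      simp only [Set.mem_union, Set.mem_compl_iff, not_or, not_not] at hcon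
      obtain ⟨⟨⟨z, s⟩, hz, rfl⟩, ⟨a, ha⟩⟩ := hcon
      obtain ⟨t, s', -, h2⟩ := (hW.2.2.2.2.2 _ _).mp ha
      simp only [Set.mem_ofPred_eq] at hz
      rw [Prod.mk.injEq] at h2
      have := norm_bz t
      rw [← h2.1, hz] at this
      simp [d0] at this)
    (F1.restrict hO1) (gauge (G2.restrict hO2) (fun w => q (ψφ (f w))))
    (by
      intro x y γ hγ
      have hγ1 : ∀ t, γ t ∈ SW φ iA iH := fun t => hO1 ⟨(hγ t).1.1, (hγ t).2⟩
      have hγ2 : ∀ t, γ t ∈ Set.range (Phi iH) := fun t => hO2 ⟨(hγ t).1.2, (hγ t).2⟩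
      have hγ3 : ∀ t, ∃ (s : Qc) (z : D2), γ t = Phi iH (s, z) ∧ (z : ℂ) ≠ 0 := by
        intro t
        obtain ⟨⟨s, z⟩, h⟩ := hγ2 t
        refine ⟨s, z, h.symm, ?_⟩
        rw [coe_ne_zero_iff]
        rintro rfl
        exact (hγ t).1.1 ⟨(d0, s), rfl, h⟩
      have hγ4 : ∀ t, ∃ u : C26, f (γ t) = φ (u, (ψP (γ t)).1) := by
        intro t
        obtain ⟨s, z, h, hz⟩ := hγ3 t
        rw [h, hψP1]
        exact hfP s z hz
      have hfγ : Continuous fun t => f (γ t) := by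
        rw [← continuousOn_univ]
        exact hfc.comp (by fun_prop) (fun t _ => hγ1 t)
      -- the lifted path in the torus
      have hlift : ∃ δ : Path (ψφ (f x)) (ψφ (f y)), ∀ t, δ t = ψφ (f (γ t)) := by
        refine ⟨⟨⟨fun t => ψφ (f (γ t)), ?_⟩, by simp, by simp⟩, fun t => rfl⟩
        rw [← continuousOn_univ]
        refine hψφc.comp hfγ.continuousOn (fun t _ => ?_)
        obtain ⟨u, hu⟩ := hγ4 t
        exact ⟨_, hu.symm⟩
      obtain ⟨δ, hδ⟩ := hlift
      have hδφ : ∀ t, φ (δ t) = f (γ t) := by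
        intro t
        obtain ⟨u, hu⟩ := hγ4 t
        rw [hδ, hu, hψφ1]
      have hδ2 : ∀ t, (δ t).2 = (ψP (γ t)).1 := by
        intro t
        obtain ⟨u, hu⟩ := hγ4 t
        rw [hδ, hu, hψφ1]
      have hδS : ∀ t, δ t ∈ SY := by
        intro t
        change ‖((δ t).2 : ℂ)‖ = 1
        rw [hδ2]
        exact (ψP (γ t)).1.2
      have key := hq δ hδS
      have e1 : F1.hol γ = HT.hol δ := by
        have ex : φ (ψφ (f x)) = f x := by
          have := hδφ 0
          rwa [γ.source, δ.source] at this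
        have ey : φ (ψφ (f y)) = f y := by
          have := hδφ 1
          rwa [γ.target, δ.target] at this
        rw [hF1 γ hγ1 ((δ.map hφc).cast ex.symm ey.symm) (fun t => hδφ t)]
        exact hol_congr' H _ _ (fun t => rfl)
      have e2 : G2.hol γ = HT.hol (δ.map zeroMap.continuous) := by
        have hgγ : Continuous fun t => g (γ t) := by
          rw [← continuousOn_univ]
          exact hgc.comp (by fun_prop) (fun t _ => hγ2 t)
        rw [hG2 γ hγ2 ⟨⟨fun t => g (γ t), hgγ⟩, by simp, by simp⟩ (fun t => rfl)]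
        apply hol_congr' H
        intro t
        change g (γ t) = φ (zeroMap (δ t))
        simp only [g]
        change _ = φ (0, (δ t).2)
        rw [hδ2]
      change F1.hol γ = (q (ψφ (f x)))⁻¹ * G2.hol γ * q (ψφ (f y))
      rw [e1, e2]
      exact key)
  refine ⟨H', ?_⟩
  rintro ⟨p, hp⟩
  obtain ⟨R', hR'⟩ := exists_radial_tube hφ
  apply h2
  refine hR'.triv H (fun e => p (iA (toB e))) ?_
  intro x y γ hγ
  have hjc : Continuous fun e => iA (toB e) := continuous_jA hW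
  have hγS : ∀ t, (γ.map hjc) t ∈ (iH '' {q : D2 × D2 | q.1 = d0})ᶜ ∩ bdW φ iA iH := by
    intro t
    have hA : (γ.map hjc) t ∈ AW φ iA := ⟨γ t, hγ t, rfl⟩
    refine ⟨?_, by rw [bdW_eq]; exact Or.inl hA⟩
    rintro ⟨⟨z, s⟩, hz, h⟩
    obtain ⟨t', s', -, h2⟩ := (hW.2.2.2.2.2 _ _).mp (show iA (toB (γ t)) = iH (z, s) from h.symm)
    rw [Prod.mk.injEq] at h2
    have := norm_bz t'
    simp only [Set.mem_ofPred_eq] at hz
    rw [← h2.1, hz] at this
    simp [d0] at this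
  have hx : x ∈ Ext φ := by simpa using hγ 0
  have hy : y ∈ Ext φ := by simpa using hγ 1
  rw [← hp (γ.map hjc) (fun t => (hγS t).2), hH' _ hγS]
  change _ = F1.hol (γ.map hjc)
  rw [hF1 (γ.map hjc) (fun t => hO1 (hγS t)) (γ.cast (hfA x hx) (hfA y hy))]
  · exact hol_congr' H _ _ (fun t => rfl)
  · intro t
    exact (hfA (γ t) (hγ t)).symm

end Pool.Agent.Helper84.Maz

namespace Pool.Agent.Helper26.Maz

section W

variable {W : Type*} [TopologicalSpace W] [T2Space W] {φ : C26 × D2 → C4 × S2}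
  {iA : C4 × B3 → W} {iH : D2 × D2 → W}

theorem A3_conn (hφ : IsTube φ) (hW : IsAttached W φ iA iH) (h : IsPathConnected (KMᶜ)) :
    IsPathConnected (bdW φ iA iH) :=
  Pool.Agent.Helper84.Maz.A3_conn hφ hW h

theorem A3_triv {Γ : Type*} [Group Γ] (hφ : IsTube φ) (hW : IsAttached W φ iA iH)
    (hc : IsPathConnected (KMᶜ)) (ℓ : C(C26, C4 × S2)) (hℓ : ∀ t, ℓ t = φ (t, d1))
    (h : ∀ H : HolOn (KMᶜ) Γ, H.loop ℓ = 1 → H.Triv) (H : HolOn (bdW φ iA iH) Γ) :
    H.Triv :=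
  Pool.Agent.Helper84.Maz.A3_triv hφ hW hc ℓ hℓ h H

theorem A3_exists {Γ : Type*} [Group Γ] (hφ : IsTube φ) (hW : IsAttached W φ iA iH)
    (hc : IsPathConnected (KMᶜ)) (ℓ : C(C26, C4 × S2)) (hℓ : ∀ t, ℓ t = φ (t, d1))
    (H : HolOn (KMᶜ) Γ) (h1 : H.loop ℓ = 1) (h2 : ¬ H.Triv) :
    ∃ H' : HolOn (bdW φ iA iH) Γ, ¬ H'.Triv :=
  Pool.Agent.Helper84.Maz.A3_exists hφ hW hc ℓ hℓ H h1 h2

end W

end Pool.Agent.Helper26.Maz
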